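import Mathlib
import Pool.Agent.Lib.MP_fd6bc6_al.Data

set_option autoImplicit false

open MeasureTheory

namespace Pool.Agent.Results.MP_fd6bc6_al.ComponentCriterion

open Pool.Agent.MoufangHaar

/-- A compact Moufang loop has an invariant Borel probability measure if and only if its
identity component has one. -/
theorem result :
    ∀ (L : Type*) [TopologicalSpace L] [CompactSpace L] [T2Space L]
      [MeasurableSpace L] [BorelSpace L] (mul ldiv rdiv : L → L → L) (e : L),
      (∀ x, mul e x = x) → (∀ x, mul x e = x) →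
      (∀ x y, mul x (ldiv x y) = y) → (∀ x y, ldiv x (mul x y) = y) →
      (∀ x y, mul (rdiv y x) x = y) → (∀ x y, rdiv (mul y x) x = y) →
      (∀ x y z, mul z (mul x (mul z y)) = mul (mul (mul z x) z) y) →
      Continuous (fun p : L × L => mul p.1 p.2) →
      Continuous (fun p : L × L => ldiv p.1 p.2) →
      Continuous (fun p : L × L => rdiv p.1 p.2) →
      ((∃ μ : Measure L, IsProbabilityMeasure μ ∧
          ∀ a : L, μ.map (fun x => mul a x) = μ ∧ μ.map (fun x => mul x a) = μ) ↔
        ∃ ν : Measure L, IsProbabilityMeasure ν ∧ ν (connectedComponent e)ᶜ = 0 ∧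
          ∀ a ∈ connectedComponent e,
            ν.map (fun x => mul a x) = ν ∧ ν.map (fun x => mul x a) = ν) := by
  intro L _ _ _ _ _ mul ldiv rdiv e h1 h2 h3 h4 h5 h6 h7 c1 c2 c3
  let : MLoop L := ofData mul ldiv e h1 h2 h3 h4 h7
  have htop : TopMLoop L := topOfData mul ldiv e h1 h2 h3 h4 h7 c1 c2
  have hset : {x : L | (ConnectedComponents.mk x : ConnectedComponents L) = 1}
      = connectedComponent e := by
    ext x
    exact mk_eq_one_iff x
  constructor
  · intro h
    have hH : HasHaar L := h
    obtain ⟨m, hm, hreg⟩ := exists_kerHaar _ cc_hom ConnectedComponents.continuous_coe hH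
    refine ⟨m, hm.prob, ?_, fun a ha => ?_⟩
    · rw [← hset]
      exact hm.conc
    · exact hm.map_eq hreg a ((mk_eq_one_iff a).mpr ha)
  · rintro ⟨ν, hp, h0, hν⟩
    have hk : KerHaar (ConnectedComponents.mk : L → ConnectedComponents L) ν := by
      refine KerHaar.of_map ν ?_ fun n hn => hν n ((mk_eq_one_iff n).mp hn)
      rw [hset]
      exact h0
    exact hasHaar_iff_component.mpr ⟨ν, hk⟩

end Pool.Agent.Results.MP_fd6bc6_al.ComponentCriterion
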