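import Mathlib
import Pool.Agent.Lib.MP_fd6bc6_al.Prox

set_option autoImplicit false

open MeasureTheory Topology

namespace Pool.Agent.Results.MP_fd6bc6_al.ContractedSubloop

open Pool.Agent.MoufangHaar

/-- A compact Moufang loop either has an invariant Borel probability measure, or its identity
component has a nontrivial connected (not necessarily closed) normal subloop in which no element
different from the unit has a positive power in the nucleus of the identity component, and whose
finite subsets are uniformly contracted by composites of translations. -/
theorem result :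
    ∀ (L : Type*) [TopologicalSpace L] [CompactSpace L] [T2Space L]
      [MeasurableSpace L] [BorelSpace L] (A : TopMoufang L),
      A.HasHaar ∨ ∃ N : Set L, A.IsNormal (connectedComponent A.e) N ∧
        IsConnected N ∧ N ≠ {A.e} ∧
        (∀ n ∈ N, n ≠ A.e → ∀ m : ℕ, 0 < m →
          ¬ A.Nuclear (connectedComponent A.e) (A.pow n m)) ∧
        (∀ F : Finset L, (F : Set L) ⊆ N → ∀ U ∈ 𝓝 A.e, ∃ g : L → L,
          A.Trans (connectedComponent A.e) g ∧
          ∀ n ∈ F, ∀ x ∈ connectedComponent A.e, A.rdiv (g (A.mul n x)) (g x) ∈ U) := by
  intro L _ _ _ _ _ A
  by_cases h : A.HasHaar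
  · exact Or.inl h
  · exact Or.inr (contracted_connected A h)

end Pool.Agent.Results.MP_fd6bc6_al.ContractedSubloop
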