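import Mathlib
import Pool.Agent.Lib.MP_fd6bc6_al.T3.FIN

set_option autoImplicit false
set_option linter.unusedSectionVars false

open MeasureTheory Topology

universe u v

namespace Pool.Agent.Results.MP_fd6bc6_al.DivisiblePart

open Pool.Agent.MoufangHaar

/-- In every compact Moufang loop `L` the set `E` of the elements which have roots of all orders is
a closed connected normal subloop carrying an invariant probability measure; so a continuous image
`Q` of `L` with kernel `E` has an invariant probability measure if and only if `L` has one, and in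
`Q` the powers `x ^ m` are uniformly small for suitable `m`. In particular every divisible compact
Moufang loop (`E = L`) has an invariant probability measure. -/
theorem result :
    ∀ (L : Type u) [TopologicalSpace L] [CompactSpace L] [T2Space L]
      [MeasurableSpace L] [BorelSpace L] (A : TopMoufang L),
      ∃ E : Set L, IsClosed E ∧ A.IsNormal Set.univ E ∧ IsConnected E ∧
        (∀ x, x ∈ E ↔ ∀ n : ℕ, 0 < n → ∃ y, A.pow y n = x) ∧
        (∃ ν : Measure L, IsProbabilityMeasure ν ∧ ν Eᶜ = 0 ∧ ∀ a ∈ E,
          ν.map (fun x => A.mul a x) = ν ∧ ν.map (fun x => A.mul x a) = ν) ∧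
        ∀ (Q : Type v) [TopologicalSpace Q] [CompactSpace Q] [T2Space Q] [MeasurableSpace Q]
          [BorelSpace Q] (B : TopMoufang Q) (φ : L → Q), Continuous φ → Function.Surjective φ →
          (∀ x y, φ (A.mul x y) = B.mul (φ x) (φ y)) → (∀ x, φ x = B.e ↔ x ∈ E) →
          (A.HasHaar ↔ B.HasHaar) ∧
          ∀ U ∈ 𝓝 B.e, ∃ m : ℕ, 0 < m ∧ ∀ x, B.pow x m ∈ U := by
  intro L _ _ _ _ _ A
  exact divisible_part L A

end Pool.Agent.Results.MP_fd6bc6_al.DivisiblePart
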