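import Mathlib
import Pool.Agent.Lib.MP_fd6bc6_al.NS.H2

set_option autoImplicit false

open MeasureTheory Topology

universe u v

namespace Pool.Agent.Results.MP_fd6bc6_al.HaarResidual

open Pool.Agent.MoufangHaar

/-- Every compact Moufang loop `L` has a closed connected normal subloop `N` such that a continuous
image `Q` of `L` has an invariant probability measure if and only if `N` is mapped to the unit (so
`L` itself has one if and only if `N` is trivial). No closed normal subloop `K` of `L` properly
contained in `N` is isolated from above among the closed normal subloops of `L` inside `N`, and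
between `K` and `N` there is a chain of closed normal subloops ordered like the rational numbers
none of whose factors has an invariant probability measure. -/
theorem result :
    ∀ (L : Type u) [TopologicalSpace L] [CompactSpace L] [T2Space L] (A : TopMoufang L),
      ∃ N : Set L, IsClosed N ∧ A.IsNormal Set.univ N ∧ IsConnected N ∧
        (∀ (Q : Type v) [TopologicalSpace Q] [CompactSpace Q] [T2Space Q] [MeasurableSpace Q]
          [BorelSpace Q] (B : TopMoufang Q) (φ : L → Q), Continuous φ → Function.Surjective φ →
          (∀ x y, φ (A.mul x y) = B.mul (φ x) (φ y)) →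
          (B.HasHaar ↔ ∀ n ∈ N, φ n = B.e)) ∧
        ∀ K : Set L, IsClosed K → A.IsNormal Set.univ K → K ⊂ N →
          (∀ V : Set L, IsOpen V → K ⊆ V → ∃ K' : Set L, IsClosed K' ∧
            A.IsNormal Set.univ K' ∧ K ⊂ K' ∧ K' ⊆ N ∩ V) ∧
          ∃ f : ℚ → Set L, (∀ q, IsClosed (f q) ∧ A.IsNormal Set.univ (f q) ∧ K ⊆ f q ∧
            f q ⊆ N) ∧ ∀ p q, p < q → f p ⊂ f q ∧ ¬ A.FactorHaar (f p) (f q) := by
  intro L _ _ _ A
  exact residual L A

end Pool.Agent.Results.MP_fd6bc6_al.HaarResidual
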